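import Pool.Agent.H62.Jones3

set_option autoImplicit false

namespace Pool.Agent.Results.MP_c19edd_an.CantorSet

/-- The achievement set of the sequence `x n = 1 / 2 ^ n + (-1) ^ n / 3 ^ n` (`n ≥ 1`) is
homeomorphic to the middle-thirds Cantor set. -/
theorem result :
    Nonempty ({s : ℝ | ∃ A : Set ℕ, (∀ n ∈ A, 1 ≤ n) ∧
        s = ∑' n : ℕ, A.indicator (fun n : ℕ => (1 : ℝ) / 2 ^ n + (-1) ^ n / 3 ^ n) n} ≃ₜ
      cantorSet) := by
  classical
  have key : {s : ℝ | ∃ A : Set ℕ, (∀ n ∈ A, 1 ≤ n) ∧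
      s = ∑' n : ℕ, A.indicator (fun n : ℕ => (1 : ℝ) / 2 ^ n + (-1) ^ n / 3 ^ n) n} =
      Pool.Agent.H62.Jones.E 0 := by
    have h : ∀ A : Set ℕ, (∀ n ∈ A, 1 ≤ n) →
        ∑' n : ℕ, A.indicator (fun n : ℕ => (1 : ℝ) / 2 ^ n + (-1) ^ n / 3 ^ n) n =
          Pool.Agent.H62.Jones.sm 0 fun i => decide (i + 1 ∈ A) := by
      intro A hA
      have e : (fun i => A.indicator (fun n : ℕ => (1 : ℝ) / 2 ^ n + (-1) ^ n / 3 ^ n) (i + 1)) =
          fun i => if (decide (i + 1 ∈ A)) then Pool.Agent.H62.Jones.x (0 + 1 + i) else 0 := by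
        funext i
        rw [show 0 + 1 + i = i + 1 by ring]
        by_cases hi : i + 1 ∈ A
        · simp [hi, Pool.Agent.H62.Jones.x, div_pow]
        · simp [hi]
      have hs : Summable fun n : ℕ =>
          A.indicator (fun n : ℕ => (1 : ℝ) / 2 ^ n + (-1) ^ n / 3 ^ n) n := by
        rw [← summable_nat_add_iff 1, e]
        exact Pool.Agent.H62.Jones.summable_term 0 _
      rw [hs.tsum_eq_zero_add, e, Set.indicator_of_notMem (fun h => by have := hA 0 h; omega),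
        zero_add]
      rfl
    ext z
    constructor
    · rintro ⟨A, hA, rfl⟩
      exact ⟨_, (h A hA).symm⟩
    · rintro ⟨ε, rfl⟩
      refine ⟨{n | 1 ≤ n ∧ ε (n - 1) = true}, fun n hn => hn.1, ?_⟩
      rw [h _ fun n hn => hn.1]
      simp
  rw [key]
  exact Pool.Agent.H62.Jones.final

end Pool.Agent.Results.MP_c19edd_an.CantorSet
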